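import Pool.Agent.W285.UB.Stm
import Pool.Agent.Helper259.AbsHt

set_option autoImplicit false

namespace Pool.Agent.W12.UB.Cnt

open Pool.Agent.W285.UB NumberField Height Module
open Pool.Agent.Helper259.AbsHt

lemma ht_pos (v : Fin 2 → Qbar) : 0 < ht v := Real.exp_pos _

lemma one_le_ht (v : Fin 2 → Qbar) : 1 ≤ ht v := by
  unfold ht
  exact Real.one_le_exp (absLogHeight_nonneg v)

lemma ht_smul (v : Fin 2 → Qbar) (c : Qbar) (hc : c ≠ 0) : ht (c • v) = ht v := by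
  unfold ht
  rw [absLogHeight_smul v hc]

lemma pt_ne {E : ℕ} {v : Fin 2 → Qbar} (h : v ∈ pt E) : v ≠ 0 := by
  rcases h with h | ⟨α, _, h⟩
  · rw [h]; intro h'
    have := congrFun h' 0
    simp at this
  · rw [h]; intro h'
    have := congrFun h' 1
    simp at this

/-- the union over the first form -/
lemma pair_bound {α : Type} (S : Finset α) (a b : Fin 2) (hab : a ≠ b)
    (Φ : α → Set α) (hΦ : ∀ f, Φ f ⊆ (S : Set α)) (X : ℝ)
    (hX : ∀ f, ((Φ f).ncard : ℝ) ≤ X) :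
    {φ : Fin 2 → α | φ a ∈ S ∧ φ b ∈ Φ (φ a)}.Finite ∧
    (({φ : Fin 2 → α | φ a ∈ S ∧ φ b ∈ Φ (φ a)}.ncard : ℕ) : ℝ) ≤ S.card * X := by
  classical
  have hfin : ∀ f, (Φ f).Finite := fun f => S.finite_toSet.subset (hΦ f)
  have hsub : {φ : Fin 2 → α | φ a ∈ S ∧ φ b ∈ Φ (φ a)} ⊆
      ⋃ f ∈ S, (fun g : α => (fun c : Fin 2 => if c = a then f else g)) '' (Φ f) := by
    rintro φ ⟨h1, h2⟩
    simp only [Set.mem_iUnion]
    refine ⟨φ a, h1, φ b, h2, ?_⟩
    funext c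
    by_cases hc : c = a
    · simp only [hc, if_true]
    · have : c = b := by omega
      simp only [hc, if_false]
      rw [this]
  have hfin2 : (⋃ f ∈ S, (fun g : α => (fun c : Fin 2 => if c = a then f else g)) '' (Φ f)).Finite :=
    Set.Finite.biUnion S.finite_toSet fun f _ => (hfin f).image _
  refine ⟨hfin2.subset hsub, ?_⟩
  have h1 := Set.ncard_le_ncard hsub hfin2
  have h2 := S.set_ncard_biUnion_le
    (fun f => (fun g : α => (fun c : Fin 2 => if c = a then f else g)) '' (Φ f))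
  have h3 : ∑ f ∈ S, (((fun g : α => (fun c : Fin 2 => if c = a then f else g)) '' (Φ f)).ncard : ℝ)
      ≤ ∑ _f ∈ S, X := by
    apply Finset.sum_le_sum
    intro f _
    refine le_trans ?_ (hX f)
    exact_mod_cast Set.ncard_image_le (hfin f)
  rw [Finset.sum_const, nsmul_eq_mul] at h3
  refine le_trans ?_ h3
  exact_mod_cast h1.trans h2

lemma box {α : Type} (s : Set α) (hs : s.Finite) (m : ℕ) :
    ∃ S : Finset (Fin m → α), (∀ f, f ∈ S ↔ ∀ i, f i ∈ s) ∧ S.card = s.ncard ^ m := by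
  classical
  refine ⟨Fintype.piFinset fun _ => hs.toFinset, ?_, ?_⟩
  · intro f
    simp
  · rw [Fintype.card_piFinset]
    simp [Set.ncard_eq_toFinset_card s hs]

theorem cnt : S_BALL → S_COUNT → S_FIB → S_LOW → S_REAL → S_CNT := by
  intro hball hcount hfib hlow hreal K _ _ ι d E hE hdE
  obtain ⟨hbfin, c, hc1, hc⟩ := hball K
  obtain ⟨C2, hC2, hcnt⟩ := hcount E
  obtain ⟨C3, hC3, hfb⟩ := hfib K ι d
  have hEE : 2 ≤ E * (E + 1) := by nlinarith
  have hd1 : 1 ≤ d := by omega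
  obtain ⟨C4, hC4, hlw⟩ := hlow d hd1
  set n := finrank ℚ K with hn
  have hn1 : 1 ≤ n := finrank_pos
  set C1 : ℝ := 2 ^ (d - 1) * (C4 * c ^ (2 * d - 1)) with hC1
  have hC1pos : 0 < C1 := by positivity
  obtain ⟨C', hC'⟩ := hreal n d (2 * (E * (E + 1))) (d - 1) (2 * d - 1) hn1 (by omega) (by omega) (by
    have h1 : (((d - 1 : ℕ)) : ℝ) = d - 1 := by
      rw [Nat.cast_sub hd1]; simp
    have h2 : (((2 * d - 1 : ℕ)) : ℝ) = 2 * d - 1 := by
      rw [Nat.cast_sub (by omega)]; simp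
    have h3 : (4 * ((E : ℝ) * (E + 1)) + 2) ≤ d := by exact_mod_cast hdE
    have h4 : (10 : ℝ) ≤ d := by
      have : 10 ≤ d := by omega
      exact_mod_cast this
    rw [h1, h2, div_le_iff₀ (by linarith)]
    push_cast
    nlinarith) C1
  refine ⟨2 * C2 ^ 2 * 3 ^ (n * (d + 1)) * C3 * |C'|, ?_⟩
  intro H hH
  have hHr : (1 : ℝ) ≤ H := by exact_mod_cast hH
  have hHpos : (0 : ℝ) < H := by linarith
  obtain ⟨Bl, hBl, hBlcard⟩ := box (ball K H) (hbfin H).1 (d + 1)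
  -- the number M
  set N : ℕ := ⌊C1 * (H : ℝ) ^ (2 * d - 1)⌋₊ with hN
  classical
  set P : ℕ → Prop := fun k => (k : ℝ) ^ (d - 1) ≤ C1 * (H : ℝ) ^ (2 * d - 1) with hP
  set M : ℕ := Nat.findGreatest P N with hM
  have hPM : P M := by
    apply Nat.findGreatest_spec (m := 0) (Nat.zero_le _)
    rw [hP]
    simp only [Nat.cast_zero]
    rw [zero_pow (by omega)]
    positivity
  have hle : ∀ k : ℕ, P k → k ≤ M := by
    intro k hk
    apply Nat.le_findGreatest _ hk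
    rw [hN]
    apply Nat.le_floor
    refine le_trans ?_ hk
    rcases Nat.eq_zero_or_pos k with h | h
    · rw [h, Nat.cast_zero]
      positivity
    · exact le_self_pow₀ (by exact_mod_cast h) (by omega)
  have hsum := hC' H M hH hPM
  -- finsets of points
  have hPfin : ∀ k : ℕ, 1 ≤ k → (pts E (k : ℝ)).Finite ∧
      ((pts E (k : ℝ)).ncard : ℝ) ≤ C2 * (k : ℝ) ^ (E * (E + 1)) := by
    intro k hk
    exact hcnt k (by exact_mod_cast hk)
  -- the pieces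
  set T : Fin 2 → Fin 2 → ℕ → (Fin 2 → Qbar) → Qbar → Set (Fin 2 → Fin (d + 1) → 𝓞 K) :=
    fun a b k w s => {φ | φ a ∈ Bl ∧ φ b ∈ (if (k : ℝ) ≤ 2 * ht w then
      {f | (∀ i, f i ∈ ball K H) ∧ fval (io ι) f w = fval (io ι) (φ a) w * s} else ∅ :
        Set (Fin (d + 1) → 𝓞 K))} with hT
  have hTb : ∀ a b : Fin 2, a ≠ b → ∀ k : ℕ, 1 ≤ k → ∀ w : Fin 2 → Qbar, w ≠ 0 → ∀ s : Qbar,
      (T a b k w s).Finite ∧ ((T a b k w s).ncard : ℝ) ≤
        Bl.card * (C3 * (1 + 2 * H / k) ^ (n * d)) := by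
    intro a b hab k hk w hw s
    have hkr : (1 : ℝ) ≤ k := by exact_mod_cast hk
    apply pair_bound Bl a b hab (fun g => (if (k : ℝ) ≤ 2 * ht w then
      {f | (∀ i, f i ∈ ball K H) ∧ fval (io ι) f w = fval (io ι) g w * s} else ∅ :
        Set (Fin (d + 1) → 𝓞 K)))
    · intro g f hf
      by_cases hkw : (k : ℝ) ≤ 2 * ht w
      · simp only [hkw, if_true] at hf
        exact (hBl f).mpr hf.1
      · simp only [hkw, if_false] at hf
        exact absurd hf (Set.notMem_empty _)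
    · intro g
      by_cases hkw : (k : ℝ) ≤ 2 * ht w
      · simp only [hkw, if_true]
        refine (hfb H hH w hw _).trans ?_
        apply mul_le_mul_of_nonneg_left _ hC3
        apply pow_le_pow_left₀ (by have := ht_pos w; positivity)
        have h1 : (H : ℝ) / ht w ≤ 2 * H / k := by
          rw [div_le_div_iff₀ (ht_pos w) (by linarith)]
          nlinarith
        linarith
      · simp only [hkw, if_false]
        simp only [Set.ncard_empty, Nat.cast_zero]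
        positivity
  -- the covering
  have hcov : {φ : Fin 2 → Fin (d + 1) → 𝓞 K | (∀ a i, φ a i ∈ ball K H) ∧
      (∀ v : Fin 2 → Qbar, pval (io ι) φ v = 0 → v = 0) ∧
      ∃ w ∈ pt E, ∃ u ∈ pt E, ht u ≤ ht w ∧ ∃ t : Qbar, pval (io ι) φ w = t • u} ⊆
      ⋃ k ∈ Finset.Icc 1 M, ⋃ w ∈ (if h : 1 ≤ k then (hPfin k h).1.toFinset else ∅),
        ⋃ u ∈ (if h : 1 ≤ k then (hPfin k h).1.toFinset else ∅),
          (T 0 1 k w (u 1) ∪ T 1 0 k w (u 0)) := by
    rintro φ ⟨hφ, hcom, w, hw, u, hu, huw, t, ht'⟩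
    have hw0 := pt_ne hw
    have ht0 : t ≠ 0 := by
      intro h
      rw [h, zero_smul] at ht'
      exact hw0 (hcom w ht')
    have h1 := hlw K ι (c * H) (by nlinarith) φ (fun a i => hc H _ (hφ a i)) hcom w hw0
    rw [ht', ht_smul _ _ ht0] at h1
    have hwpos := ht_pos w
    have hw1 := one_le_ht w
    have h2 : ht w ^ d ≤ C4 * (c * H) ^ (2 * d - 1) * ht w := by
      refine h1.trans ?_
      apply mul_le_mul_of_nonneg_left huw
      have : 0 ≤ c * (H : ℝ) := by nlinarith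
      positivity
    have h3 : ht w ^ (d - 1) ≤ C4 * (c * H) ^ (2 * d - 1) := by
      have h4 : ht w ^ d = ht w ^ (d - 1) * ht w := by
        rw [← pow_succ]; congr 1; omega
      rw [h4] at h2
      exact le_of_mul_le_mul_right h2 hwpos
    set k : ℕ := ⌈ht w⌉₊ with hk
    have hk1 : 1 ≤ k := Nat.one_le_iff_ne_zero.mpr (by
      intro h
      rw [hk, Nat.ceil_eq_zero] at h
      linarith)
    have hkle : ht w ≤ k := Nat.le_ceil _
    have hkle2 : (k : ℝ) ≤ 2 * ht w := by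
      have := Nat.ceil_lt_add_one hwpos.le
      linarith
    have hPk : P k := by
      rw [hP]
      calc (k : ℝ) ^ (d - 1) ≤ (2 * ht w) ^ (d - 1) :=
            pow_le_pow_left₀ (by positivity) hkle2 _
        _ = 2 ^ (d - 1) * ht w ^ (d - 1) := by rw [mul_pow]
        _ ≤ 2 ^ (d - 1) * (C4 * (c * H) ^ (2 * d - 1)) := by
            apply mul_le_mul_of_nonneg_left h3; positivity
        _ = C1 * (H : ℝ) ^ (2 * d - 1) := by rw [hC1, mul_pow]; ring
    have hkM := hle k hPk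
    simp only [Set.mem_iUnion]
    have hwm : w ∈ (if h : 1 ≤ k then (hPfin k h).1.toFinset else ∅) := by
      rw [dif_pos hk1, Set.Finite.mem_toFinset]
      exact ⟨hw, hkle⟩
    have hum : u ∈ (if h : 1 ≤ k then (hPfin k h).1.toFinset else ∅) := by
      rw [dif_pos hk1, Set.Finite.mem_toFinset]
      exact ⟨hu, huw.trans hkle⟩
    refine ⟨k, Finset.mem_Icc.mpr ⟨hk1, hkM⟩, w, hwm, u, hum, ?_⟩
    have e0 : fval (io ι) (φ 0) w = t * u 0 := congrFun ht' 0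
    have e1 : fval (io ι) (φ 1) w = t * u 1 := congrFun ht' 1
    rcases hu with hu | ⟨β, _, hu⟩
    · left
      rw [hT]
      refine ⟨(hBl _).mpr (hφ 0), ?_⟩
      simp only [hkle2, if_true]
      refine ⟨hφ 1, ?_⟩
      rw [e0, e1]
      have : u 0 = 1 := by rw [hu]; simp
      rw [this, mul_one]
    · right
      rw [hT]
      refine ⟨(hBl _).mpr (hφ 1), ?_⟩
      simp only [hkle2, if_true]
      refine ⟨hφ 0, ?_⟩
      rw [e0, e1]
      have : u 1 = 1 := by rw [hu]; simp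
      rw [this, mul_one]
  -- finiteness of the covering
  have hmem : ∀ k ∈ Finset.Icc 1 M, ∀ w ∈ (if h : 1 ≤ k then (hPfin k h).1.toFinset else ∅),
      w ≠ 0 := by
    intro k hk w hw
    rw [Finset.mem_Icc] at hk
    rw [dif_pos hk.1, Set.Finite.mem_toFinset] at hw
    exact pt_ne hw.1
  have hcovfin : (⋃ k ∈ Finset.Icc 1 M, ⋃ w ∈ (if h : 1 ≤ k then (hPfin k h).1.toFinset else ∅),
        ⋃ u ∈ (if h : 1 ≤ k then (hPfin k h).1.toFinset else ∅),
          (T 0 1 k w (u 1) ∪ T 1 0 k w (u 0))).Finite := by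
    apply Set.Finite.biUnion (Finset.finite_toSet _)
    intro k hk
    apply Set.Finite.biUnion (Finset.finite_toSet _)
    intro w hw
    apply Set.Finite.biUnion (Finset.finite_toSet _)
    intro u hu
    have hk1 := (Finset.mem_Icc.mp hk).1
    have hw0 := hmem k hk w hw
    exact ((hTb 0 1 (by decide) k hk1 w hw0 _).1).union ((hTb 1 0 (by decide) k hk1 w hw0 _).1)
  have hcard1 := Set.ncard_le_ncard hcov hcovfin
  have hcard2 := (Finset.Icc 1 M).set_ncard_biUnion_le (fun k =>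
      ⋃ w ∈ (if h : 1 ≤ k then (hPfin k h).1.toFinset else ∅),
        ⋃ u ∈ (if h : 1 ≤ k then (hPfin k h).1.toFinset else ∅),
          (T 0 1 k w (u 1) ∪ T 1 0 k w (u 0)))
  have hcard3 : ∀ k ∈ Finset.Icc 1 M,
      ((⋃ w ∈ (if h : 1 ≤ k then (hPfin k h).1.toFinset else ∅),
        ⋃ u ∈ (if h : 1 ≤ k then (hPfin k h).1.toFinset else ∅),
          (T 0 1 k w (u 1) ∪ T 1 0 k w (u 0))).ncard : ℝ) ≤
      (C2 * (k : ℝ) ^ (E * (E + 1))) ^ 2 * (2 * (Bl.card * (C3 * (1 + 2 * H / k) ^ (n * d)))) := by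
    intro k hk
    have hk1 := (Finset.mem_Icc.mp hk).1
    have hkr : (1 : ℝ) ≤ k := by exact_mod_cast hk1
    rw [dif_pos hk1]
    set Q := (hPfin k hk1).1.toFinset with hQ
    have hQcard : (Q.card : ℝ) ≤ C2 * (k : ℝ) ^ (E * (E + 1)) := by
      rw [hQ, ← Set.ncard_eq_toFinset_card _ (hPfin k hk1).1]
      exact (hPfin k hk1).2
    have hY : (0 : ℝ) ≤ Bl.card * (C3 * (1 + 2 * H / k) ^ (n * d)) := by positivity
    have h1 : ∀ w ∈ Q, ∀ u ∈ Q, ((T 0 1 k w (u 1) ∪ T 1 0 k w (u 0)).ncard : ℝ) ≤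
        2 * (Bl.card * (C3 * (1 + 2 * H / k) ^ (n * d))) := by
      intro w hw u _
      have hw0 := hmem k hk w (by rw [dif_pos hk1]; exact hw)
      have h2 := Set.ncard_union_le (T 0 1 k w (u 1)) (T 1 0 k w (u 0))
      have h3 := (hTb 0 1 (by decide) k hk1 w hw0 (u 1)).2
      have h4 := (hTb 1 0 (by decide) k hk1 w hw0 (u 0)).2
      have h5 : ((T 0 1 k w (u 1) ∪ T 1 0 k w (u 0)).ncard : ℝ) ≤
          ((T 0 1 k w (u 1)).ncard : ℝ) + ((T 1 0 k w (u 0)).ncard : ℝ) := by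
        exact_mod_cast h2
      linarith
    have h6 : ∀ w ∈ Q, ((⋃ u ∈ Q, (T 0 1 k w (u 1) ∪ T 1 0 k w (u 0))).ncard : ℝ) ≤
        Q.card * (2 * (Bl.card * (C3 * (1 + 2 * H / k) ^ (n * d)))) := by
      intro w hw
      have h7 := Q.set_ncard_biUnion_le (fun u => T 0 1 k w (u 1) ∪ T 1 0 k w (u 0))
      have h8 : ((⋃ u ∈ Q, (T 0 1 k w (u 1) ∪ T 1 0 k w (u 0))).ncard : ℝ) ≤
          ∑ u ∈ Q, ((T 0 1 k w (u 1) ∪ T 1 0 k w (u 0)).ncard : ℝ) := by
        exact_mod_cast h7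
      refine h8.trans ((Finset.sum_le_sum fun u hu => h1 w hw u hu).trans ?_)
      rw [Finset.sum_const, nsmul_eq_mul]
    have h9 := Q.set_ncard_biUnion_le (fun w => ⋃ u ∈ Q, (T 0 1 k w (u 1) ∪ T 1 0 k w (u 0)))
    have h10 : ((⋃ w ∈ Q, ⋃ u ∈ Q, (T 0 1 k w (u 1) ∪ T 1 0 k w (u 0))).ncard : ℝ) ≤
        ∑ w ∈ Q, ((⋃ u ∈ Q, (T 0 1 k w (u 1) ∪ T 1 0 k w (u 0))).ncard : ℝ) := by
      exact_mod_cast h9
    refine h10.trans ((Finset.sum_le_sum fun w hw => h6 w hw).trans ?_)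
    rw [Finset.sum_const, nsmul_eq_mul, ← mul_assoc, sq]
    apply mul_le_mul_of_nonneg_right _ (by positivity)
    apply mul_le_mul hQcard hQcard (by positivity) (by positivity)
  have hBlle : (Bl.card : ℝ) ≤ (3 : ℝ) ^ (n * (d + 1)) * (H : ℝ) ^ (n * (d + 1)) := by
    rw [hBlcard, (hbfin H).2, ← pow_mul, ← mul_pow]
    push_cast
    apply pow_le_pow_left₀ (by positivity)
    linarith
  have hS : ∑ k ∈ Finset.Icc 1 M, (C2 * (k : ℝ) ^ (E * (E + 1))) ^ 2 *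
      (2 * (Bl.card * (C3 * (1 + 2 * H / k) ^ (n * d)))) =
      2 * C2 ^ 2 * Bl.card * C3 *
        ∑ k ∈ Finset.Icc 1 M, (k : ℝ) ^ (2 * (E * (E + 1))) * (1 + 2 * H / k) ^ (n * d) := by
    rw [Finset.mul_sum]
    refine Finset.sum_congr rfl fun k _ => ?_
    rw [mul_pow, ← pow_mul, mul_comm (E * (E + 1)) 2]
    ring
  have hfinal1 : (({φ : Fin 2 → Fin (d + 1) → 𝓞 K | (∀ a i, φ a i ∈ ball K H) ∧
      (∀ v : Fin 2 → Qbar, pval (io ι) φ v = 0 → v = 0) ∧
      ∃ w ∈ pt E, ∃ u ∈ pt E, ht u ≤ ht w ∧ ∃ t : Qbar, pval (io ι) φ w = t • u}.ncard : ℕ) : ℝ) ≤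
      2 * C2 ^ 2 * Bl.card * C3 *
        ∑ k ∈ Finset.Icc 1 M, (k : ℝ) ^ (2 * (E * (E + 1))) * (1 + 2 * H / k) ^ (n * d) := by
    rw [← hS]
    refine le_trans ?_ (Finset.sum_le_sum hcard3)
    exact_mod_cast hcard1.trans hcard2
  refine hfinal1.trans ?_
  have hpow : (H : ℝ) ^ ((n : ℝ) * (2 * d + 2) - 1 / 4) =
      (H : ℝ) ^ (n * (d + 1)) * (H : ℝ) ^ ((n : ℝ) * (d + 1) - 1 / 4) := by
    rw [← Real.rpow_natCast, ← Real.rpow_add hHpos]
    congr 1
    push_cast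
    ring
  rw [hpow]
  have hR : (0 : ℝ) ≤ (H : ℝ) ^ ((n : ℝ) * (d + 1) - 1 / 4) := by positivity
  have hS0 : (0 : ℝ) ≤ ∑ k ∈ Finset.Icc 1 M, (k : ℝ) ^ (2 * (E * (E + 1))) *
      (1 + 2 * H / k) ^ (n * d) := by
    apply Finset.sum_nonneg
    intro k _
    positivity
  have hS1 : ∑ k ∈ Finset.Icc 1 M, (k : ℝ) ^ (2 * (E * (E + 1))) *
      (1 + 2 * H / k) ^ (n * d) ≤ |C'| * (H : ℝ) ^ ((n : ℝ) * (d + 1) - 1 / 4) := by
    refine hsum.trans ?_
    apply mul_le_mul_of_nonneg_right (le_abs_self _) hR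
  calc 2 * C2 ^ 2 * Bl.card * C3 * ∑ k ∈ Finset.Icc 1 M, (k : ℝ) ^ (2 * (E * (E + 1))) *
        (1 + 2 * H / k) ^ (n * d)
      ≤ 2 * C2 ^ 2 * ((3 : ℝ) ^ (n * (d + 1)) * (H : ℝ) ^ (n * (d + 1))) * C3 *
        (|C'| * (H : ℝ) ^ ((n : ℝ) * (d + 1) - 1 / 4)) := by
        apply mul_le_mul _ hS1 hS0 (by positivity)
        apply mul_le_mul_of_nonneg_right _ hC3
        apply mul_le_mul_of_nonneg_left hBlle (by positivity)
    _ = _ := by ring

end Pool.Agent.W12.UB.Cnt
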