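import Pool.Agent.W606.UB.Stm

/-!
# UB PROJ: projections
-/

set_option autoImplicit false

namespace KN

namespace UB

open Finset Filter Topology
open scoped Classical

theorem U_of_same {w w' : List Dir} (h : Same (vl w) (vl w')) (hw : U w) : U w' := by
  rcases hw with hw | hw
  · exact Or.inl (h.symm.trans hw)
  · exact Or.inr (h.symm.trans hw)

theorem rot_mem (h2 : T_rt) (d f : Dir) (hp : perp d f) (n : ℕ) (w : List Dir)
    (hw : w ∈ K U n) : w.map (rt d f) ∈ K U n := by
  rw [mem_K] at hw ⊢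
  obtain ⟨h3, h4, h5⟩ := hw
  obtain ⟨h6, h7⟩ := h2 d f hp w h4
  exact ⟨by rw [List.length_map]; exact h3, h6, U_of_same h7 h5⟩

theorem sum_rot (h2 : T_rt) (h3 : T_rtc) (d f : Dir) (hp : perp d f) (n : ℕ)
    (g : List Dir → ℝ) : ∑ w ∈ K U n, g (w.map (rt d f)) = ∑ w ∈ K U n, g w := by
  obtain ⟨⟨d', f', hp', -, -, he1, he2, -, -⟩, -⟩ := h3 d f hp
  refine Finset.sum_nbij' (fun w => w.map (rt d f)) (fun w => w.map (rt d' f'))
    (fun w hw => rot_mem h2 d f hp n w hw) (fun w hw => rot_mem h2 d' f' hp' n w hw) ?_ ?_ ?_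
  · intro w _
    show (w.map (rt d f)).map (rt d' f') = w
    rw [List.map_map]
    conv_rhs => rw [← List.map_id w]
    refine List.map_congr_left fun e _ => ?_
    exact he1 e
  · intro w _
    show (w.map (rt d' f')).map (rt d f) = w
    rw [List.map_map]
    conv_rhs => rw [← List.map_id w]
    refine List.map_congr_left fun e _ => ?_
    exact he2 e
  · intro w _
    rfl

theorem card_path (w : List Dir) (hw : SAP w) : w.length ≤ (path w).toFinset.card := by
  obtain ⟨-, -, hnd⟩ := hw
  have h1 : (path w).tail.toFinset.card = w.length := by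
    rw [List.toFinset_card_of_nodup hnd, List.length_tail, path_length, Nat.add_sub_cancel]
  rw [← h1]
  refine Finset.card_le_card ?_
  intro p hp
  rw [List.mem_toFinset] at hp ⊢
  exact List.mem_of_mem_tail hp

theorem cube_root (n : ℕ) (p q r : ℝ) (hp : 0 ≤ p) (hq : 0 ≤ q) (hr : 0 ≤ r)
    (h : (n : ℝ) ^ 2 ≤ p * q * r) : (n : ℝ) ^ (2 / 3 : ℝ) ≤ p + q + r := by
  have h0 : (0 : ℝ) ≤ n := Nat.cast_nonneg _
  have h1 : ((n : ℝ) ^ (2 / 3 : ℝ)) ^ 3 = (n : ℝ) ^ 2 := by
    rw [← Real.rpow_natCast, ← Real.rpow_mul h0, ← Real.rpow_natCast]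
    norm_num
  have h2 : p * q * r ≤ (p + q + r) ^ 3 := by
    have e1 : p ≤ p + q + r := by linarith
    have e2 : q ≤ p + q + r := by linarith
    have e3 : r ≤ p + q + r := by linarith
    have e4 : p * q ≤ (p + q + r) * (p + q + r) :=
      mul_le_mul e1 e2 hq (by positivity)
    calc p * q * r ≤ (p + q + r) * (p + q + r) * (p + q + r) :=
          mul_le_mul e4 e3 hr (by positivity)
      _ = (p + q + r) ^ 3 := by ring
  refine le_of_pow_le_pow_left₀ (n := 3) (by norm_num) (by positivity) ?_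
  rw [h1]
  exact h.trans h2

theorem p1_rot (h3 : T_rtc) (d f : Dir) (hp : perp d f) (w : List Dir) :
    ((path (w.map (rt d f))).map Prod.snd).toFinset =
      (path w).toFinset.image (fun p => (Rp d f p).2) := by
  obtain ⟨-, -, hpos, -⟩ := h3 d f hp
  rw [(hpos w).2, List.map_map]
  ext x
  simp only [List.mem_toFinset, List.mem_map, Finset.mem_image, Function.comp]

theorem PROJ_main (h1 : T_LW) (h2 : T_rt) (h3 : T_rtc) : P_proj := by
  intro n _
  have hb : perp Dir.yp Dir.xp := by decide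
  have hc : perp Dir.zp Dir.yp := by decide
  set g : List Dir → ℝ := fun w => (((path w).map Prod.snd).toFinset.card : ℝ) with hg
  have s1 := sum_rot h2 h3 .yp .xp hb n g
  have s2 := sum_rot h2 h3 .zp .yp hc n g
  have key : ∀ w ∈ K U n, (n : ℝ) ^ (2 / 3 : ℝ) ≤
      g w + g (w.map (rt .zp .yp)) + g (w.map (rt .yp .xp)) := by
    intro w hw
    rw [mem_K] at hw
    obtain ⟨hlen, hsap, -⟩ := hw
    have e1 : (path w).toFinset.image (fun p : Z3 => (p.2.1, p.2.2)) =
        ((path w).map Prod.snd).toFinset := by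
      ext x
      simp only [List.mem_toFinset, List.mem_map, Finset.mem_image]
    have e2 : ((path w).toFinset.image (fun p : Z3 => (p.1, p.2.2))).card =
        ((path (w.map (rt .zp .yp))).map Prod.snd).toFinset.card := by
      rw [p1_rot h3 _ _ hc]
      have e3 : (path w).toFinset.image (fun p => (Rp .zp .yp p).2) =
          ((path w).toFinset.image (fun p : Z3 => (p.1, p.2.2))).image Prod.swap := by
        rw [Finset.image_image]
        refine Finset.image_congr fun p _ => ?_
        simp [Rp, vec, cr]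
      rw [e3, Finset.card_image_of_injective _ Prod.swap_injective]
    have e4 : ((path w).toFinset.image (fun p : Z3 => (p.1, p.2.1))).card =
        ((path (w.map (rt .yp .xp))).map Prod.snd).toFinset.card := by
      rw [p1_rot h3 _ _ hb]
      congr 1
      refine Finset.image_congr fun p _ => ?_
      simp [Rp, vec, cr]
    have e5 := h1 (path w).toFinset
    rw [e1, e2, e4] at e5
    have e6 := card_path w hsap
    rw [hlen] at e6
    have e7 : n ^ 2 ≤ (path w).toFinset.card ^ 2 := Nat.pow_le_pow_left e6 2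
    have e8 := e7.trans e5
    refine cube_root n _ _ _ (Nat.cast_nonneg _) (Nat.cast_nonneg _) (Nat.cast_nonneg _) ?_
    have e9 : ((n ^ 2 : ℕ) : ℝ) ≤ _ := Nat.cast_le.2 e8
    rw [Nat.cast_mul, Nat.cast_mul, Nat.cast_pow] at e9
    exact e9
  have h4 : ∑ w ∈ K U n, (n : ℝ) ^ (2 / 3 : ℝ) ≤
      ∑ w ∈ K U n, (g w + g (w.map (rt .zp .yp)) + g (w.map (rt .yp .xp))) :=
    Finset.sum_le_sum key
  rw [Finset.sum_add_distrib, Finset.sum_add_distrib, s1, s2, Finset.sum_const, nsmul_eq_mul] at h4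
  have h5 : ((K U n).card : ℝ) = a U n := rfl
  rw [h5] at h4
  calc (n : ℝ) ^ (2 / 3 : ℝ) * a U n = a U n * (n : ℝ) ^ (2 / 3 : ℝ) := mul_comm _ _
    _ ≤ _ := h4
    _ = 3 * ∑ w ∈ K U n, g w := by ring

end UB

end KN
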