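import Pool.Agent.W285.UB.Stm

set_option autoImplicit false

namespace Pool.Agent.W12.UB.Syl

open Pool.Agent.W285.UB NumberField Height Module
open Pool.Agent.Helper259.AbsHt
open Polynomial

section ring
variable {R : Type} [CommRing R]

noncomputable def F {d : ℕ} (f : Fin (d + 1) → R) : R[X] := ∑ j, C (f j) * X ^ (j : ℕ)

lemma F_coeff {d : ℕ} (f : Fin (d + 1) → R) (n : ℕ) :
    (F f).coeff n = if h : n < d + 1 then f ⟨n, h⟩ else 0 := by
  unfold F
  rw [finsetSum_coeff]
  simp only [coeff_C_mul, coeff_X_pow]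
  split_ifs with h
  · rw [Finset.sum_eq_single ⟨n, h⟩]
    · simp
    · intro b _ hb
      rw [if_neg, mul_zero]
      intro h'
      apply hb
      exact Fin.ext h'.symm
    · intro h'
      exact absurd (Finset.mem_univ _) h'
  · apply Finset.sum_eq_zero
    intro i _
    rw [if_neg, mul_zero]
    have := i.2
    omega

lemma F_map {S : Type} [CommRing S] (g : R →+* S) {d : ℕ} (f : Fin (d + 1) → R) :
    (F f).map g = F (fun i => g (f i)) := by
  unfold F
  rw [Polynomial.map_sum]
  simp

/-- the index of a row -/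
def ex {d : ℕ} (p : Fin 2 × Fin d) : ℕ := (finProdFinEquiv p : ℕ)

noncomputable def M {d : ℕ} (φ : Fin 2 → Fin (d + 1) → R) :
    Matrix (Fin 2 × Fin d) (Fin 2 × Fin d) R :=
  fun p q => (X ^ (q.2 : ℕ) * F (φ q.1)).coeff (ex p)

lemma M_map {S : Type} [CommRing S] (g : R →+* S) {d : ℕ} (φ : Fin 2 → Fin (d + 1) → R) :
    (M φ).map g = M (fun a i => g (φ a i)) := by
  ext p q
  simp only [Matrix.map_apply, M]
  rw [← Polynomial.coeff_map, Polynomial.map_mul, Polynomial.map_pow, Polynomial.map_X, F_map]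

lemma M_apply {d : ℕ} (φ : Fin 2 → Fin (d + 1) → R) (p q : Fin 2 × Fin d) :
    M φ p q = 0 ∨ ∃ i, M φ p q = φ q.1 i := by
  unfold M
  rw [coeff_X_pow_mul']
  split_ifs with h
  · rw [F_coeff]
    split_ifs with h'
    · right; exact ⟨_, rfl⟩
    · left; rfl
  · left; rfl

lemma sum_ex {d : ℕ} (g : ℕ → R) : ∑ p : Fin 2 × Fin d, g (ex p) = ∑ n ∈ Finset.range (2 * d), g n := by
  rw [← Fin.sum_univ_eq_sum_range]
  exact Equiv.sum_comp finProdFinEquiv (fun n : Fin (2 * d) => g (n : ℕ))

lemma hom {d : ℕ} (φ : Fin 2 → Fin (d + 1) → R) (v : Fin 2 → R) (q : Fin 2 × Fin d) :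
    ∑ p, M φ p q * (v 0 ^ (ex p) * v 1 ^ (2 * d - 1 - ex p)) =
      v 0 ^ (q.2 : ℕ) * v 1 ^ (d - 1 - (q.2 : ℕ)) * fval (RingHom.id R) (φ q.1) v := by
  refine (sum_ex (d := d) (fun n => (X ^ (q.2 : ℕ) * F (φ q.1)).coeff n *
    (v 0 ^ n * v 1 ^ (2 * d - 1 - n)))).trans ?_
  unfold F fval
  simp only [Finset.mul_sum, finsetSum_coeff, Finset.sum_mul]
  rw [Finset.sum_comm]
  refine Finset.sum_congr rfl fun j _ => ?_
  have hq := q.2.2
  have hj := j.2
  rw [Finset.sum_eq_single ((q.2 : ℕ) + (j : ℕ))]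
  · have h1 : (X ^ (q.2 : ℕ) * (C (φ q.1 j) * X ^ (j : ℕ)) : R[X]) =
        C (φ q.1 j) * X ^ ((q.2 : ℕ) + (j : ℕ)) := by ring
    rw [h1, coeff_C_mul, coeff_X_pow_self]
    have h2 : 2 * d - 1 - ((q.2 : ℕ) + (j : ℕ)) = (d - 1 - (q.2 : ℕ)) + (d - j) := by omega
    rw [h2]
    simp only [RingHom.id_apply]
    ring
  · intro n _ hn
    have h1 : (X ^ (q.2 : ℕ) * (C (φ q.1 j) * X ^ (j : ℕ)) : R[X]) =
        C (φ q.1 j) * X ^ ((q.2 : ℕ) + (j : ℕ)) := by ring
    rw [h1, coeff_C_mul, coeff_X_pow, if_neg hn]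
    ring
  · intro h
    exfalso
    apply h
    rw [Finset.mem_range]
    omega

end ring

lemma ex_inj {d : ℕ} : Function.Injective (ex : Fin 2 × Fin d → ℕ) :=
  Fin.val_injective.comp finProdFinEquiv.injective

/-- a matrix entry bound for the adjugate -/
lemma adj_bound {ι : Type} [Fintype ι] [DecidableEq ι] (A : Matrix ι ι ℂ) (B : ℝ)
    (hA : ∀ i j, ‖A i j‖ ≤ B) (i j : ι) :
    ‖A.adjugate i j‖ ≤ (Fintype.card ι).factorial * B ^ (Fintype.card ι - 1) := by
  rw [Matrix.adjugate_apply, Matrix.det_apply]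
  refine (norm_sum_le _ _).trans ?_
  have h1 : ∀ σ : Equiv.Perm ι, ‖Equiv.Perm.sign σ •
      ∏ k, (A.updateRow j (Pi.single i 1)) (σ k) k‖ ≤ B ^ (Fintype.card ι - 1) := by
    intro σ
    have h2 : ‖Equiv.Perm.sign σ • ∏ k, (A.updateRow j (Pi.single i 1)) (σ k) k‖ =
        ‖∏ k, (A.updateRow j (Pi.single i 1)) (σ k) k‖ := by
      rcases Int.units_eq_one_or (Equiv.Perm.sign σ) with h | h
      · rw [h, one_smul]
      · rw [h, Units.neg_smul, one_smul, norm_neg]
    rw [h2, norm_prod, ← Finset.mul_prod_erase Finset.univ _ (Finset.mem_univ (σ.symm j))]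
    have h3 : ‖(A.updateRow j (Pi.single i 1)) (σ (σ.symm j)) (σ.symm j)‖ ≤ 1 := by
      rw [Equiv.apply_symm_apply, Matrix.updateRow_self]
      by_cases h : i = σ.symm j
      · rw [← h]; simp
      · rw [Pi.single_eq_of_ne (fun h' => h h'.symm)]; simp
    have h4 : ∏ k ∈ Finset.univ.erase (σ.symm j), ‖(A.updateRow j (Pi.single i 1)) (σ k) k‖ ≤
        B ^ (Fintype.card ι - 1) := by
      have h5 : ∏ k ∈ Finset.univ.erase (σ.symm j), ‖(A.updateRow j (Pi.single i 1)) (σ k) k‖ ≤
          ∏ _k ∈ Finset.univ.erase (σ.symm j), B := by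
        apply Finset.prod_le_prod
        · intro _ _; exact norm_nonneg _
        · intro k hk
          rw [Finset.mem_erase] at hk
          rw [Matrix.updateRow_ne]
          · exact hA _ _
          · intro h
            apply hk.1
            rw [← h, Equiv.symm_apply_apply]
      rw [Finset.prod_const, Finset.card_erase_of_mem (Finset.mem_univ _), Finset.card_univ] at h5
      exact h5
    calc _ ≤ 1 * B ^ (Fintype.card ι - 1) := by
          apply mul_le_mul h3 h4 (Finset.prod_nonneg fun _ _ => norm_nonneg _) zero_le_one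
      _ = _ := one_mul _
  calc _ ≤ ∑ _σ : Equiv.Perm ι, B ^ (Fintype.card ι - 1) := Finset.sum_le_sum fun σ _ => h1 σ
    _ = _ := by
      rw [Finset.sum_const, Finset.card_univ, Fintype.card_perm, nsmul_eq_mul]

lemma det_ne {L : Type} [Field L] [IsAlgClosed L] {d : ℕ} (φ : Fin 2 → Fin (d + 1) → L)
    (h : ∀ v : Fin 2 → L, (∀ a, fval (RingHom.id L) (φ a) v = 0) → v = 0) : (M φ).det ≠ 0 := by
  intro h0
  obtain ⟨w, hw0, hw⟩ := Matrix.exists_mulVec_eq_zero_iff.mpr h0
  set A : Fin 2 → L[X] := fun a => ∑ i : Fin d, C (w (a, i)) * X ^ (i : ℕ) with hA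
  have hAdeg : ∀ a, (A a).degree < d := by
    intro a
    rw [hA]
    refine (Polynomial.degree_sum_le _ _).trans_lt ?_
    rw [Finset.sup_lt_iff]
    · intro i _
      refine (Polynomial.degree_C_mul_X_pow_le _ _).trans_lt ?_
      exact_mod_cast i.2
    · exact WithBot.bot_lt_coe _
  have hFdeg : ∀ a, (F (φ a)).degree < (d + 1 : ℕ) := by
    intro a
    unfold F
    refine (Polynomial.degree_sum_le _ _).trans_lt ?_
    rw [Finset.sup_lt_iff]
    · intro i _
      refine (Polynomial.degree_C_mul_X_pow_le _ _).trans_lt ?_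
      exact_mod_cast i.2
    · exact WithBot.bot_lt_coe _
  have hcoef : ∀ a n, (A a * F (φ a)).coeff n =
      ∑ i : Fin d, w (a, i) * (X ^ (i : ℕ) * F (φ a)).coeff n := by
    intro a n
    rw [hA]
    simp only [Finset.sum_mul, finsetSum_coeff]
    refine Finset.sum_congr rfl fun i _ => ?_
    rw [mul_assoc, coeff_C_mul]
  have hsum : A 0 * F (φ 0) + A 1 * F (φ 1) = 0 := by
    ext n
    rw [coeff_add, coeff_zero]
    by_cases hn : n < 2 * d
    · have h1 := congrFun hw (finProdFinEquiv.symm ⟨n, hn⟩)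
      simp only [Matrix.mulVec, dotProduct, Pi.zero_apply] at h1
      rw [Fintype.sum_prod_type, Fin.sum_univ_two] at h1
      rw [hcoef, hcoef, ← h1]
      have h2 : ex (finProdFinEquiv.symm ⟨n, hn⟩ : Fin 2 × Fin d) = n := by
        unfold ex
        rw [Equiv.apply_symm_apply]
      unfold M
      rw [h2]
      congr 1
      · exact Finset.sum_congr rfl fun i _ => mul_comm _ _
      · exact Finset.sum_congr rfl fun i _ => mul_comm _ _
    · have h3 : ∀ a, (A a * F (φ a)).coeff n = 0 := by
        intro a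
        rw [hcoef]
        apply Finset.sum_eq_zero
        intro i _
        rw [coeff_X_pow_mul']
        have hi := i.2
        split_ifs with h4
        · rw [F_coeff, dif_neg, mul_zero]
          omega
        · rw [mul_zero]
      rw [h3, h3, add_zero]
  -- coprimality
  have heval : ∀ (a : Fin 2) (x : L), (F (φ a)).eval x = fval (RingHom.id L) (φ a) ![x, 1] := by
    intro a x
    unfold F fval
    rw [eval_finsetSum]
    simp
  have hcop : IsCoprime (F (φ 0)) (F (φ 1)) := by
    rw [Polynomial.isCoprime_iff_aeval_ne_zero_of_isAlgClosed L L]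
    intro x
    by_contra hc
    push Not at hc
    have h5 : (![x, 1] : Fin 2 → L) = 0 := by
      apply h
      intro a
      rw [← heval]
      fin_cases a
      · have := hc.1
        simpa using this
      · have := hc.2
        simpa using this
    have := congrFun h5 1
    simp at this
  have hlead : φ 0 (Fin.last d) ≠ 0 ∨ φ 1 (Fin.last d) ≠ 0 := by
    by_contra hc
    push Not at hc
    have h5 : (![1, 0] : Fin 2 → L) = 0 := by
      apply h
      have h6 : ∀ a, fval (RingHom.id L) (φ a) ![1, 0] = φ a (Fin.last d) := by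
        intro a
        unfold fval
        rw [Finset.sum_eq_single (Fin.last d)]
        · simp
        · intro b _ hb
          have : d - (b : ℕ) ≠ 0 := by
            have hb2 := b.2
            have : (b : ℕ) ≠ d := by
              intro h7
              apply hb
              exact Fin.ext h7
            omega
          simp [this]
        · intro h7
          exact absurd (Finset.mem_univ _) h7
      intro a
      rw [h6]
      fin_cases a
      · exact hc.1
      · exact hc.2
    have := congrFun h5 0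
    simp at this
  have hkey : ∀ a b : Fin 2, A a * F (φ a) + A b * F (φ b) = 0 → IsCoprime (F (φ b)) (F (φ a)) →
      φ b (Fin.last d) ≠ 0 → A a = 0 ∧ A b = 0 := by
    intro a b hab hc hl
    have hdeg : (d : WithBot ℕ) ≤ (F (φ b)).degree := by
      apply Polynomial.le_degree_of_ne_zero
      rw [F_coeff, dif_pos (Nat.lt_succ_self d)]
      exact hl
    have hFb : F (φ b) ≠ 0 := by
      intro h8
      rw [h8, degree_zero] at hdeg
      simp at hdeg
    have hdvd : F (φ b) ∣ A a := by
      apply hc.dvd_of_dvd_mul_right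
      rw [eq_neg_of_add_eq_zero_left hab]
      exact (Dvd.intro_left _ rfl).neg_right
    have hAa : A a = 0 := by
      by_contra hne
      have := Polynomial.degree_le_of_dvd hdvd hne
      exact absurd (hdeg.trans this) (not_le.mpr (hAdeg a))
    refine ⟨hAa, ?_⟩
    rw [hAa, zero_mul, zero_add] at hab
    rcases mul_eq_zero.mp hab with h9 | h9
    · exact h9
    · exact absurd h9 hFb
  have hA0 : ∀ a, A a = 0 := by
    rcases hlead with hl | hl
    · have := hkey 1 0 (by rw [add_comm]; exact hsum) hcop hl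
      intro a
      fin_cases a
      · exact this.2
      · exact this.1
    · have := hkey 0 1 hsum hcop.symm hl
      intro a
      fin_cases a
      · exact this.1
      · exact this.2
  apply hw0
  ext ⟨a, i⟩
  have h10 : (A a).coeff (i : ℕ) = w (a, i) := by
    rw [hA]
    simp only [finsetSum_coeff, coeff_C_mul, coeff_X_pow]
    rw [Finset.sum_eq_single i]
    · simp
    · intro b _ hb
      rw [if_neg, mul_zero]
      intro h'
      apply hb
      exact Fin.ext h'.symm
    · intro h'
      exact absurd (Finset.mem_univ _) h'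
  rw [← h10, hA0 a, coeff_zero, Pi.zero_apply]

theorem syl : S_SYL := by
  intro d hd
  refine ⟨(2 * d).factorial, by exact_mod_cast Nat.one_le_iff_ne_zero.mpr (Nat.factorial_ne_zero _),
    ?_⟩
  intro K _ _ ι B hB φ hφ hcom
  have hcard : Fintype.card (Fin 2 × Fin d) = 2 * d := by simp
  refine ⟨(M φ).det, ?_, fun k a i => (M φ).adjugate (a, i)
    (if k = 0 then (1, ⟨d - 1, by omega⟩) else (0, ⟨0, by omega⟩)), ?_, ?_⟩
  · intro h0
    have h1 : ((M φ).map (io ι)).det = 0 := by
      have := RingHom.map_det (io ι) (M φ)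
      rw [h0, map_zero] at this
      exact this.symm
    rw [M_map] at h1
    refine det_ne (fun a i => io ι (φ a i)) ?_ h1
    intro v hv
    apply hcom
    funext a
    exact hv a
  · intro k a i σ
    have h1 : ((σ : K →+* ℂ).comp (algebraMap (𝓞 K) K)) ((M φ).adjugate (a, i)
      (if k = 0 then (1, ⟨d - 1, by omega⟩) else (0, ⟨0, by omega⟩))) =
        ((M φ).map ((σ : K →+* ℂ).comp (algebraMap (𝓞 K) K))).adjugate (a, i)
      (if k = 0 then (1, ⟨d - 1, by omega⟩) else (0, ⟨0, by omega⟩)) := by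
      have h2 := RingHom.map_adjugate ((σ : K →+* ℂ).comp (algebraMap (𝓞 K) K)) (M φ)
      have h3 := congrFun (congrFun h2 (a, i))
        (if k = 0 then (1, ⟨d - 1, by omega⟩) else (0, ⟨0, by omega⟩))
      exact h3
    have h4 : σ (((M φ).adjugate (a, i)
      (if k = 0 then (1, ⟨d - 1, by omega⟩) else (0, ⟨0, by omega⟩)) : 𝓞 K) : K) =
      ((σ : K →+* ℂ).comp (algebraMap (𝓞 K) K)) ((M φ).adjugate (a, i)
      (if k = 0 then (1, ⟨d - 1, by omega⟩) else (0, ⟨0, by omega⟩))) := rfl
    rw [h4, h1]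
    have h5 := adj_bound ((M φ).map ((σ : K →+* ℂ).comp (algebraMap (𝓞 K) K))) B ?_ (a, i)
      (if k = 0 then (1, ⟨d - 1, by omega⟩) else (0, ⟨0, by omega⟩))
    · rw [hcard] at h5
      exact h5
    · intro p q
      rw [Matrix.map_apply]
      rcases M_apply φ p q with h6 | ⟨i, h6⟩
      · rw [h6, map_zero, norm_zero]
        linarith
      · rw [h6]
        exact hφ q.1 i σ
  · intro v k
    have key : ∀ r : Fin 2 × Fin d, io ι (M φ).det * (v 0 ^ (ex r) * v 1 ^ (2 * d - 1 - ex r)) =
        ∑ a, (∑ i : Fin d, io ι ((M φ).adjugate (a, i) r) * v 0 ^ (i : ℕ) * v 1 ^ (d - 1 - i)) *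
          fval (io ι) (φ a) v := by
      intro r
      have h1 : ∀ a (i : Fin d), io ι ((M φ).adjugate (a, i) r) * v 0 ^ (i : ℕ) * v 1 ^ (d - 1 - (i : ℕ)) *
          fval (io ι) (φ a) v = ∑ p, io ι ((M φ) p (a, i) * (M φ).adjugate (a, i) r) *
            (v 0 ^ (ex p) * v 1 ^ (2 * d - 1 - ex p)) := by
        intro a i
        have h2 := hom (fun a i => io ι (φ a i)) v (a, i)
        have h3 : fval (RingHom.id Qbar) (fun i => io ι (φ a i)) v = fval (io ι) (φ a) v := rfl
        simp only at h2
        rw [h3] at h2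
        rw [mul_assoc, mul_assoc, ← mul_assoc (v 0 ^ (i : ℕ)), ← h2, Finset.mul_sum]
        refine Finset.sum_congr rfl fun p _ => ?_
        have h4 := congrFun (congrFun (M_map (io ι) φ) p) (a, i)
        rw [Matrix.map_apply] at h4
        rw [← h4, map_mul]
        ring
      simp only [Finset.sum_mul]
      simp only [h1]
      have h5 : ∀ G : Fin 2 → Fin d → Qbar, ∑ a, ∑ i, G a i = ∑ q : Fin 2 × Fin d, G q.1 q.2 := by
        intro G
        rw [Fintype.sum_prod_type]
      rw [h5 (fun a i => ∑ p, io ι ((M φ) p (a, i) * (M φ).adjugate (a, i) r) *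
            (v 0 ^ (ex p) * v 1 ^ (2 * d - 1 - ex p)))]
      rw [Finset.sum_comm]
      have h6 : ∀ p, ∑ q : Fin 2 × Fin d, io ι ((M φ) p (q.1, q.2) * (M φ).adjugate (q.1, q.2) r) *
            (v 0 ^ (ex p) * v 1 ^ (2 * d - 1 - ex p)) =
          io ι ((M φ * (M φ).adjugate) p r) * (v 0 ^ (ex p) * v 1 ^ (2 * d - 1 - ex p)) := by
        intro p
        rw [Matrix.mul_apply, map_sum, Finset.sum_mul]
      rw [Finset.sum_congr rfl fun p _ => h6 p, Matrix.mul_adjugate]
      rw [Finset.sum_eq_single r]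
      · simp
      · intro p _ hp
        rw [Matrix.smul_apply, Matrix.one_apply_ne hp]
        simp
      · intro h'
        exact absurd (Finset.mem_univ _) h'
    fin_cases k
    · have h1 := key (1, ⟨d - 1, by omega⟩)
      have h2 : ex ((1, ⟨d - 1, by omega⟩) : Fin 2 × Fin d) = 2 * d - 1 := by
        unfold ex
        rw [finProdFinEquiv_apply_val]
        simp
        omega
      rw [h2, Nat.sub_self, pow_zero, mul_one] at h1
      exact h1
    · have h1 := key (0, ⟨0, by omega⟩)
      have h2 : ex ((0, ⟨0, by omega⟩) : Fin 2 × Fin d) = 0 := by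
        unfold ex
        rw [finProdFinEquiv_apply_val]
        simp
      rw [h2, Nat.sub_zero, pow_zero, one_mul] at h1
      exact h1

end Pool.Agent.W12.UB.Syl
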